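import Pool.Agent.V11266.HX7

/-!
MP_4ac5ef_an: for every finite set `Φ` of bounded functionals on `H^∞`, the exposed points of the
unit ball of `H^∞_Φ` are the unit-norm functions with `|f| = 1` on a set of positive measure.
-/

namespace Pool.Agent.Results.MP_4ac5ef_an.ExposedPoints

open MeasureTheory AddCircle Pool.Agent.V11266.HX
open scoped ENNReal

/-- The Banach space `L^∞` (complex scalars) of the circle `ℝ / Tℤ` with its normalized Haar
measure. -/
def LInfinity (T : ℝ) [Fact (0 < T)] : Type := Lp ℂ ∞ (haarAddCircle (T := T))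

noncomputable instance LInfinity.group (T : ℝ) [Fact (0 < T)] :
    NormedAddCommGroup (LInfinity T) := Lp.instNormedAddCommGroup

noncomputable instance LInfinity.space (T : ℝ) [Fact (0 < T)] :
    NormedSpace ℂ (LInfinity T) := Lp.instNormedSpace

/-- A function on the circle representing an element of `L^∞`. -/
noncomputable def LInfinity.fn {T : ℝ} [Fact (0 < T)] (f : LInfinity T) : AddCircle T → ℂ :=
  AEEqFun.cast (Subtype.val f)

/-- The set of the functions in `L^∞` whose Fourier coefficients of negative index vanish. -/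
def HSet (T : ℝ) [Fact (0 < T)] : Set (LInfinity T) :=
  {f | ∀ n : ℤ, n < 0 → fourierCoeff f.fn n = 0}

theorem HSet.add {T : ℝ} [Fact (0 < T)] {f g : LInfinity T} (hf : f ∈ HSet T)
    (hg : g ∈ HSet T) : f + g ∈ HSet T := (Hinf T).add_mem' hf hg

theorem HSet.zero {T : ℝ} [Fact (0 < T)] : (0 : LInfinity T) ∈ HSet T := (Hinf T).zero_mem'

theorem HSet.smul {T : ℝ} [Fact (0 < T)] (c : ℂ) {f : LInfinity T} (hf : f ∈ HSet T) :
    c • f ∈ HSet T := (Hinf T).smul_mem' c hf

/-- `H^∞` as a subspace of `L^∞`: the Fourier coefficients of negative index vanish. -/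
def HInf (T : ℝ) [Fact (0 < T)] : Submodule ℂ (LInfinity T) where
  carrier := HSet T
  add_mem' := HSet.add
  zero_mem' := HSet.zero
  smul_mem' := HSet.smul

/-- The Banach space `H^∞` with the norm of `L^∞`. -/
def HInfinity (T : ℝ) [Fact (0 < T)] : Type := HInf T

noncomputable instance HInfinity.group (T : ℝ) [Fact (0 < T)] :
    NormedAddCommGroup (HInfinity T) := Submodule.normedAddCommGroup (HInf T)

noncomputable instance HInfinity.space (T : ℝ) [Fact (0 < T)] :
    NormedSpace ℂ (HInfinity T) := Submodule.normedSpace (HInf T)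

/-- The common kernel `{f ∈ H^∞ : φ f = 0 for all φ ∈ Φ}`. -/
def kernelSet {T : ℝ} [Fact (0 < T)] (Φ : Set (HInfinity T →L[ℂ] ℂ)) : Set (HInfinity T) :=
  {f | ∀ φ ∈ Φ, φ f = 0}

theorem kernelSet.add {T : ℝ} [Fact (0 < T)] {Φ : Set (HInfinity T →L[ℂ] ℂ)}
    {f g : HInfinity T} (hf : f ∈ kernelSet Φ) (hg : g ∈ kernelSet Φ) :
    f + g ∈ kernelSet Φ := by
  intro φ hφ
  rw [map_add, hf φ hφ, hg φ hφ, add_zero]

theorem kernelSet.zero {T : ℝ} [Fact (0 < T)] {Φ : Set (HInfinity T →L[ℂ] ℂ)} :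
    (0 : HInfinity T) ∈ kernelSet Φ := fun φ _ => map_zero φ

theorem kernelSet.smul {T : ℝ} [Fact (0 < T)] {Φ : Set (HInfinity T →L[ℂ] ℂ)} (c : ℂ)
    {f : HInfinity T} (hf : f ∈ kernelSet Φ) : c • f ∈ kernelSet Φ := by
  intro φ hφ
  rw [map_smul, hf φ hφ, smul_zero]

/-- The subspace `{f ∈ H^∞ : φ f = 0 for all φ ∈ Φ}`. -/
def kernelOf {T : ℝ} [Fact (0 < T)] (Φ : Set (HInfinity T →L[ℂ] ℂ)) :
    Submodule ℂ (HInfinity T) where
  carrier := kernelSet Φ
  add_mem' := kernelSet.add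
  zero_mem' := kernelSet.zero
  smul_mem' := kernelSet.smul

/-- The Banach space `H^∞_Φ` with the norm of `L^∞`. -/
def HInfinityPhi {T : ℝ} [Fact (0 < T)] (Φ : Set (HInfinity T →L[ℂ] ℂ)) : Type := kernelOf Φ

noncomputable instance HInfinityPhi.group {T : ℝ} [Fact (0 < T)]
    (Φ : Set (HInfinity T →L[ℂ] ℂ)) : NormedAddCommGroup (HInfinityPhi Φ) :=
  Submodule.normedAddCommGroup (kernelOf Φ)

noncomputable instance HInfinityPhi.space {T : ℝ} [Fact (0 < T)]
    (Φ : Set (HInfinity T →L[ℂ] ℂ)) : NormedSpace ℂ (HInfinityPhi Φ) :=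
  Submodule.normedSpace (kernelOf Φ)

/-- A function on the circle representing an element of `H^∞_Φ`. -/
noncomputable def HInfinityPhi.fn {T : ℝ} [Fact (0 < T)] {Φ : Set (HInfinity T →L[ℂ] ℂ)}
    (f : HInfinityPhi Φ) : AddCircle T → ℂ :=
  LInfinity.fn (Subtype.val (p := fun g => g ∈ HInf T)
    (Subtype.val (p := fun g => g ∈ kernelOf Φ) f))

/-- The exposed points of the unit ball of `H^∞_Φ`, for every finite `Φ`. -/
theorem result {T : ℝ} [Fact (0 < T)] (Φ : Set (HInfinity T →L[ℂ] ℂ)) (hΦ : Φ.Finite)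
    (f : HInfinityPhi Φ) :
    IsExposedPoint f ↔ ‖f‖ = 1 ∧ 0 < haarAddCircle {x : AddCircle T | ‖f.fn x‖ = 1} :=
  ⟨exposed_pos (T := T) Φ hΦ f, fun h => pos_exposed (T := T) Φ f h.1 h.2⟩

end Pool.Agent.Results.MP_4ac5ef_an.ExposedPoints
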